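import Pool.Agent.Helper26.AF.Goals3
import Pool.Agent.Helper26.AF.Base

/-!
Project AF, packet SMO (second moment).
-/

namespace Pool.Agent.Helper50.AF

open Finset Pool.Agent.Helper26.AF

open Classical

/-- weighted number of graphs -/
noncomputable def yk (P : ∀ k : ℕ, SimpleGraph (Fin k) → Prop) (p : ℝ) (k : ℕ) : ℝ :=
  ∑ᶠ H : {H : SimpleGraph (Fin k) // H.Connected ∧ P k H}, (p / (1 - p)) ^ ne H.1

/-- the event for one set -/
def Ev {n : ℕ} (P : ∀ k : ℕ, SimpleGraph (Fin k) → Prop) (K : Finset ℕ) (Q : Finset (Fin n))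
    (G : SimpleGraph (Fin n)) : Prop :=
  #Q ∈ K ∧ IsComp G Q ∧ P #Q (G.comap (Q.orderEmbOfFin rfl))

/-- the exponent -/
def Mk (n k : ℕ) : ℕ := k * (n - k) + k.choose 2

theorem yk_nonneg (P : ∀ k : ℕ, SimpleGraph (Fin k) → Prop) (p : ℝ) (h0 : 0 < p) (h1 : p < 1)
    (k : ℕ) : 0 ≤ yk P p k :=
  finsum_nonneg fun H => pow_nonneg (div_nonneg h0.le (by linarith)) _

theorem choose_add (k m : ℕ) : (k + m).choose 2 = k.choose 2 + m.choose 2 + k * m := by
  induction m with
  | zero => simp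
  | succ m ih =>
    rw [← add_assoc, Nat.choose_succ_succ' (k + m) 1, Nat.choose_succ_succ' m 1, ih,
      Nat.choose_one_right, Nat.choose_one_right]
    ring

theorem Mk_add (n k m : ℕ) (h : k + m ≤ n) : Mk n (k + m) + k * m = Mk n k + Mk n m := by
  obtain ⟨r, rfl⟩ := Nat.exists_eq_add_of_le h
  unfold Mk
  rw [choose_add, Nat.add_sub_cancel_left, show k + m + r - k = m + r by omega,
    show k + m + r - m = k + r by omega]
  ring

theorem pr1 (hCMP : StmtCMP) {n : ℕ} (P : ∀ k : ℕ, SimpleGraph (Fin k) → Prop) (K : Finset ℕ)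
    (p : ℝ) (h0 : 0 < p) (h1 : p < 1) (Q : Finset (Fin n)) (hQ : #Q ∈ K) (hQ1 : 1 ≤ #Q) :
    Pr p (Ev P K Q) = (1 - p) ^ Mk n #Q * yk P p #Q := by
  have h := hCMP n 1 (fun _ => Q) (fun i j hij => absurd (Subsingleton.elim i j) hij)
    (fun _ => card_pos.1 hQ1) (fun _ => P) p h0 h1
  rw [Fin.prod_univ_one, Fin.sum_univ_one] at h
  rw [← Pr_congr (P := fun G : SimpleGraph (Fin n) => ∀ _ : Fin 1, IsComp G Q ∧
      P #Q (G.comap (Q.orderEmbOfFin rfl))), h]
  · rfl
  · intro G
    constructor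
    · intro h2
      exact ⟨hQ, h2 0⟩
    · intro h2 _
      exact h2.2

theorem pr2 (hCMP : StmtCMP) {n : ℕ} (P : ∀ k : ℕ, SimpleGraph (Fin k) → Prop) (K : Finset ℕ)
    (p : ℝ) (h0 : 0 < p) (h1 : p < 1) (Q Q' : Finset (Fin n)) (hQ : #Q ∈ K) (hQ' : #Q' ∈ K)
    (hQ1 : 1 ≤ #Q) (hQ1' : 1 ≤ #Q') (hd : Disjoint Q Q') :
    Pr p (fun G => Ev P K Q G ∧ Ev P K Q' G) =
      (1 - p) ^ Mk n (#Q + #Q') * (yk P p #Q * yk P p #Q') := by
  have h := hCMP n 2 ![Q, Q'] (fun i j hij => by
      fin_cases i <;> fin_cases j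
      · exact absurd rfl hij
      · exact hd
      · exact hd.symm
      · exact absurd rfl hij)
    (fun i => by
      fin_cases i
      · exact card_pos.1 hQ1
      · exact card_pos.1 hQ1') (fun _ => P) p h0 h1
  rw [Fin.prod_univ_two, Fin.sum_univ_two] at h
  rw [← Pr_congr (P := fun G : SimpleGraph (Fin n) => ∀ i : Fin 2, IsComp G (![Q, Q'] i) ∧
      P #(![Q, Q'] i) (G.comap ((![Q, Q'] i).orderEmbOfFin rfl))), h]
  · rfl
  · intro G
    rw [Fin.forall_fin_two]
    constructor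
    · intro h2
      exact ⟨⟨hQ, h2.1⟩, ⟨hQ', h2.2⟩⟩
    · intro h2
      exact ⟨h2.1.2, h2.2.2⟩

theorem pr_false {n : ℕ} (p : ℝ) (P : SimpleGraph (Fin n) → Prop) (h : ∀ G, ¬ P G) :
    Pr p P = 0 := by
  unfold Pr EE
  refine Finset.sum_eq_zero fun G _ => ?_
  show wt p G * (if P G then 1 else 0) = 0
  rw [if_neg (h G), mul_zero]

theorem comp_disj {n : ℕ} (G : SimpleGraph (Fin n)) (Q Q' : Finset (Fin n)) (h : IsComp G Q)
    (h' : IsComp G Q') (hne : Q' ≠ Q) : Disjoint Q Q' := by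
  obtain ⟨c, hc⟩ := h
  obtain ⟨c', hc'⟩ := h'
  rw [Finset.disjoint_left]
  intro v hv hv'
  have h1 : v ∈ c.supp := by rw [hc]; exact hv
  have h2 : v ∈ c'.supp := by rw [hc']; exact hv'
  rw [SimpleGraph.ConnectedComponent.mem_supp_iff] at h1 h2
  apply hne
  apply Finset.coe_injective
  rw [← hc, ← hc', ← h1, ← h2]

theorem sum_card {n : ℕ} (x : Finset (Fin n)) (K : Finset ℕ) (c : ℕ → ℝ) :
    ∑ Q ∈ x.powerset, (if #Q ∈ K then c #Q else 0) = ∑ m ∈ K, ((#x).choose m : ℝ) * c m := by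
  rw [Finset.sum_powerset_apply_card (fun m => if m ∈ K then c m else 0)]
  have h1 : ∀ m, (#x).choose m • (if m ∈ K then c m else 0) =
      if m ∈ K then ((#x).choose m : ℝ) * c m else 0 := by
    intro m
    split_ifs <;> simp
  simp only [h1]
  rw [← Finset.sum_filter]
  apply Finset.sum_subset
  · intro m hm
    exact (mem_filter.1 hm).2
  · intro m hm hm'
    have h2 : #x < m := by
      by_contra h3
      exact hm' (mem_filter.2 ⟨mem_range.2 (by omega), hm⟩)
    rw [Nat.choose_eq_zero_of_lt h2]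
    simp

theorem key {n : ℕ} (P : ∀ k : ℕ, SimpleGraph (Fin k) → Prop) (K : Finset ℕ) (p B : ℝ)
    (h0 : 0 < p) (h1 : p < 1) (hB : 0 ≤ B) (k m : ℕ) (hk : k ≤ n)
    (h : ((n - k).choose m : ℝ) ≤ B * (1 - p) ^ (k * m) * (n.choose m : ℝ)) :
    ((n - k).choose m : ℝ) * ((1 - p) ^ Mk n (k + m) * (yk P p k * yk P p m)) ≤
      B * Ak P p n m * ((1 - p) ^ Mk n k * yk P p k) := by
  have hq : 0 < 1 - p := by linarith
  have hy := yk_nonneg P p h0 h1
  have hA : Ak P p n m = (n.choose m : ℝ) * (1 - p) ^ Mk n m * yk P p m := rfl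
  rw [hA]
  rcases Nat.lt_or_ge (n - k) m with h2 | h2
  · rw [Nat.choose_eq_zero_of_lt h2]
    have e1 := hy k
    have e2 := hy m
    have : 0 ≤ B * ((n.choose m : ℝ) * (1 - p) ^ Mk n m * yk P p m) *
        ((1 - p) ^ Mk n k * yk P p k) := by positivity
    simpa using this
  · have h3 : Mk n (k + m) + k * m = Mk n k + Mk n m := Mk_add n k m (by omega)
    have e1 := hy k
    have e2 := hy m
    calc ((n - k).choose m : ℝ) * ((1 - p) ^ Mk n (k + m) * (yk P p k * yk P p m)) ≤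
          (B * (1 - p) ^ (k * m) * (n.choose m : ℝ)) *
            ((1 - p) ^ Mk n (k + m) * (yk P p k * yk P p m)) :=
          mul_le_mul_of_nonneg_right h (by positivity)
      _ = B * (n.choose m : ℝ) * (yk P p k * yk P p m) *
          ((1 - p) ^ (Mk n (k + m) + k * m)) := by rw [pow_add]; ring
      _ = _ := by rw [h3, pow_add]; ring

/-- Packet SMO. -/
theorem goalSMO (hCMP : StmtCMP) : StmtSMO := by
  intro n P K p B h0 h1 hB hK hKK
  obtain ⟨μ, hμ⟩ : ∃ μ, μ = ∑ k ∈ K, Ak P p n k := ⟨_, rfl⟩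
  rw [← hμ]
  have hq : 0 < 1 - p := by linarith
  have hy := yk_nonneg P p h0 h1
  have hAk : ∀ m, 0 ≤ Ak P p n m := by
    intro m
    have e1 := hy m
    have : Ak P p n m = (n.choose m : ℝ) * (1 - p) ^ Mk n m * yk P p m := rfl
    rw [this]
    positivity
  have hμ0 : 0 ≤ μ := by
    rw [hμ]
    exact Finset.sum_nonneg fun k _ => hAk k
  have hpr : ∀ Q : Finset (Fin n), Pr p (Ev P K Q) =
      if #Q ∈ K then (1 - p) ^ Mk n #Q * yk P p #Q else 0 := by
    intro Q
    split_ifs with hQ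
    · exact pr1 hCMP P K p h0 h1 Q hQ (hK _ hQ)
    · exact pr_false p _ fun G hG => hQ hG.1
  have hpr0 : ∀ Q : Finset (Fin n), 0 ≤ Pr p (Ev P K Q) := fun Q => Pr_nonneg h0.le h1.le _
  have hEX : ∑ Q : Finset (Fin n), Pr p (Ev P K Q) = μ := by
    rw [← Finset.powerset_univ]
    simp only [hpr]
    rw [sum_card univ K (fun m => (1 - p) ^ Mk n m * yk P p m), hμ]
    refine Finset.sum_congr rfl fun m _ => ?_
    have : Ak P p n m = (n.choose m : ℝ) * (1 - p) ^ Mk n m * yk P p m := rfl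
    rw [this, Finset.card_univ, Fintype.card_fin]
    ring
  have hrow : ∀ Q : Finset (Fin n), ∑ Q' : Finset (Fin n), Pr p (fun G => Ev P K Q G ∧ Ev P K Q' G)
      ≤ (1 + B * μ) * Pr p (Ev P K Q) := by
    intro Q
    by_cases hQ : #Q ∈ K
    · rw [← Finset.add_sum_erase univ _ (mem_univ Q)]
      have e1 : Pr p (fun G => Ev P K Q G ∧ Ev P K Q G) = Pr p (Ev P K Q) :=
        Pr_congr fun G => and_self_iff
      have e2 : ∑ Q' ∈ univ.erase Q, Pr p (fun G => Ev P K Q G ∧ Ev P K Q' G) ≤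
          ∑ Q' ∈ (univ \ Q).powerset, (if #Q' ∈ K then
            (1 - p) ^ Mk n (#Q + #Q') * (yk P p #Q * yk P p #Q') else 0) := by
        have e3 : ∀ Q' ∈ univ.erase Q, Pr p (fun G => Ev P K Q G ∧ Ev P K Q' G) ≤
            if Q' ∈ (univ \ Q).powerset then (if #Q' ∈ K then
              (1 - p) ^ Mk n (#Q + #Q') * (yk P p #Q * yk P p #Q') else 0) else 0 := by
          intro Q' hQ'
          have hne : Q' ≠ Q := (mem_erase.1 hQ').1
          by_cases hd : Disjoint Q Q'
          · have e4 : Q' ∈ (univ \ Q).powerset := by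
              rw [mem_powerset]
              intro v hv
              exact mem_sdiff.2 ⟨mem_univ v, fun hv' => (Finset.disjoint_left.1 hd) hv' hv⟩
            rw [if_pos e4]
            split_ifs with hk
            · exact (pr2 hCMP P K p h0 h1 Q Q' hQ hk (hK _ hQ) (hK _ hk) hd).le
            · exact (pr_false p _ fun G hG => hk hG.2.1).le
          · have e4 : Pr p (fun G => Ev P K Q G ∧ Ev P K Q' G) = 0 :=
              pr_false p _ fun G hG => hd (comp_disj G Q Q' hG.1.2.1 hG.2.2.1 hne)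
            rw [e4]
            split_ifs
            · have := hy #Q
              have := hy #Q'
              positivity
            · exact le_rfl
            · exact le_rfl
        refine (Finset.sum_le_sum e3).trans ?_
        refine (Finset.sum_le_univ_sum_of_nonneg (fun Q' => ?_)).trans ?_
        · split_ifs
          · have := hy #Q
            have := hy #Q'
            positivity
          · exact le_rfl
          · exact le_rfl
        · rw [← Finset.sum_filter]
          refine le_of_eq (Finset.sum_congr ?_ fun _ _ => rfl)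
          ext Q'
          simp
      have e5 : ∑ Q' ∈ (univ \ Q).powerset, (if #Q' ∈ K then
            (1 - p) ^ Mk n (#Q + #Q') * (yk P p #Q * yk P p #Q') else 0) ≤
          B * μ * Pr p (Ev P K Q) := by
        rw [sum_card (univ \ Q) K (fun m => (1 - p) ^ Mk n (#Q + m) * (yk P p #Q * yk P p m)),
          hpr, if_pos hQ, hμ, Finset.mul_sum, Finset.sum_mul]
        refine Finset.sum_le_sum fun m hm => ?_
        have e6 : #(univ \ Q) = n - #Q := by
          rw [Finset.card_sdiff_of_subset (subset_univ Q), Finset.card_univ, Fintype.card_fin]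
        rw [e6]
        refine key P K p B h0 h1 hB #Q m ?_ (hKK _ hQ _ hm)
        have := card_le_univ Q
        rwa [Fintype.card_fin] at this
      rw [e1]
      calc _ ≤ Pr p (Ev P K Q) + B * μ * Pr p (Ev P K Q) := by
            exact add_le_add le_rfl (e2.trans e5)
        _ = _ := by ring
    · have e1 : ∀ Q' : Finset (Fin n), Pr p (fun G => Ev P K Q G ∧ Ev P K Q' G) = 0 := fun Q' =>
        pr_false p _ fun G hG => hQ hG.1.1
      simp only [e1, Finset.sum_const_zero]
      exact mul_nonneg (by positivity) (hpr0 Q)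
  obtain ⟨A, hA⟩ : ∃ A : SimpleGraph (Fin n) → Prop, A = fun G => ∃ Q : Finset (Fin n), #Q ∈ K ∧
    IsComp G Q ∧ P #Q (G.comap (Q.orderEmbOfFin rfl)) := ⟨_, rfl⟩
  rw [← hA]
  obtain ⟨I, hI⟩ : ∃ I : Finset (Fin n) → SimpleGraph (Fin n) → ℝ,
    I = fun Q G => if Ev P K Q G then 1 else 0 := ⟨_, rfl⟩
  obtain ⟨X, hX⟩ : ∃ X : SimpleGraph (Fin n) → ℝ, X = fun G => ∑ Q : Finset (Fin n), I Q G :=
    ⟨_, rfl⟩
  have hI1 : ∀ Q, EE p (I Q) = Pr p (Ev P K Q) := fun Q => by rw [hI]; rfl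
  have hI2 : ∀ Q Q', EE p (fun G => I Q G * I Q' G) = Pr p (fun G => Ev P K Q G ∧ Ev P K Q' G) := by
    intro Q Q'
    unfold Pr
    congr 1
    funext G
    rw [hI]
    by_cases e1 : Ev P K Q G <;> by_cases e2 : Ev P K Q' G <;> simp [e1, e2]
  have hX1 : EE p X = μ := by
    rw [hX, EE_sum, ← hEX]
    exact Finset.sum_congr rfl fun Q _ => hI1 Q
  have hX2 : EE p (fun G => X G * X G) ≤ (1 + B * μ) * μ := by
    have e1 : (fun G => X G * X G) = fun G => ∑ Q : Finset (Fin n), ∑ Q' : Finset (Fin n),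
        I Q G * I Q' G := by
      funext G
      rw [hX]
      exact Finset.sum_mul_sum _ _ _ _
    rw [e1, EE_sum]
    calc _ = ∑ Q : Finset (Fin n), ∑ Q' : Finset (Fin n),
          Pr p (fun G => Ev P K Q G ∧ Ev P K Q' G) := by
          refine Finset.sum_congr rfl fun Q _ => ?_
          rw [EE_sum]
          exact Finset.sum_congr rfl fun Q' _ => hI2 Q Q'
      _ ≤ ∑ Q : Finset (Fin n), (1 + B * μ) * Pr p (Ev P K Q) :=
          Finset.sum_le_sum fun Q _ => hrow Q
      _ = _ := by rw [← Finset.mul_sum, hEX]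
  obtain ⟨s, hs⟩ : ∃ s, s = 1 + B * μ := ⟨_, rfl⟩
  have hs0 : 0 < s := by
    rw [hs]
    positivity
  have hA1 : EE p (fun G => if A G then (1 : ℝ) else 0) = Pr p A := rfl
  have hpt : (fun G => (X G - s * (if A G then (1 : ℝ) else 0)) ^ 2) =
      fun G => (X G * X G - (2 * s) * X G) + s ^ 2 * (if A G then (1 : ℝ) else 0) := by
    funext G
    by_cases hAG : A G
    · simp only [hAG, if_true]
      ring
    · have e1 : X G = 0 := by
        rw [hX]
        refine Finset.sum_eq_zero fun Q _ => ?_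
        rw [hI]
        refine if_neg fun hE => hAG ?_
        rw [hA]
        exact ⟨Q, hE⟩
      simp [hAG, e1]
  have hnn : 0 ≤ EE p (fun G => (X G - s * (if A G then (1 : ℝ) else 0)) ^ 2) :=
    EE_nonneg h0.le h1.le fun G => sq_nonneg _
  rw [hpt, EE_add p (fun G => X G * X G - (2 * s) * X G) _, EE_sub, EE_smul, EE_smul, hX1, hA1]
    at hnn
  rw [← hs] at hX2 ⊢
  have e9 : 0 ≤ s * (s * Pr p A - μ) := by nlinarith
  have := nonneg_of_mul_nonneg_right e9 hs0
  linarith

end Pool.Agent.Helper50.AF
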